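import Pool.Agent.Y50.SC.Disc
import Pool.Agent.Y287.SC.Weak

/-!
# FV, piece C1: the linear identities on the unit circle
-/

set_option autoImplicit false

open Complex MeasureTheory Metric Set Filter Topology ComplexConjugate
open Pool.Agent.TH298.Sch (Sol)
open Pool.Agent.Y245.SC (lap)

namespace Pool.Agent.E8helper38.FV

/-- the plane wave -/
noncomputable def V (α β : ℂ) (z : ℂ) : ℂ := exp (α * z + β * conj z)

lemma V_hasFDerivAt (α β x : ℂ) : HasFDerivAt (𝕜 := ℝ) (V α β)
    (V α β x • (α • (1 : ℂ →L[ℝ] ℂ) + β • (conjCLE : ℂ →L[ℝ] ℂ))) x := by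
  have h1 : HasFDerivAt (𝕜 := ℝ) (fun z : ℂ => α * z) (α • (1 : ℂ →L[ℝ] ℂ)) x :=
    (hasFDerivAt_id (𝕜 := ℝ) x).const_mul α
  have h2 : HasFDerivAt (𝕜 := ℝ) (fun z : ℂ => β * conj z) (β • (conjCLE : ℂ →L[ℝ] ℂ)) x :=
    ((conjCLE : ℂ →L[ℝ] ℂ).hasFDerivAt (x := x)).const_mul β
  exact (h1.add h2).cexp

lemma V_fderiv (α β x v : ℂ) : fderiv ℝ (V α β) x v = V α β x * (α * v + β * conj v) := by
  rw [(V_hasFDerivAt α β x).fderiv]
  rfl

lemma V_contDiff (α β : ℂ) (n : WithTop ℕ∞) : ContDiff ℝ n (V α β) := by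
  unfold V
  have h1 : ContDiff ℝ n (fun z : ℂ => conj z) := (conjCLE : ℂ →L[ℝ] ℂ).contDiff
  have h2 : ContDiff ℝ n (fun z : ℂ => α * z + β * conj z) :=
    (contDiff_const.mul contDiff_id).add (contDiff_const.mul h1)
  exact h2.cexp

lemma V_lap (α β x : ℂ) : lap (V α β) x = 4 * (α * β) * V α β x := by
  unfold lap
  have h1 : ∀ c : ℂ, HasFDerivAt (𝕜 := ℝ) (fun y => V α β y * c)
      (c • (V α β x • (α • (1 : ℂ →L[ℝ] ℂ) + β • (conjCLE : ℂ →L[ℝ] ℂ)))) x :=
    fun c => (V_hasFDerivAt α β x).mul_const c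
  have h2 : ∀ v : ℂ, fderiv ℝ (fun y => fderiv ℝ (V α β) y v) x v =
      V α β x * (α * v + β * conj v) ^ 2 := by
    intro v
    have h3 : (fun y => fderiv ℝ (V α β) y v) =
        fun y => V α β y * (α * v + β * conj v) := by
      funext y
      exact V_fderiv α β y v
    rw [h3, (h1 _).fderiv]
    change (α * v + β * conj v) * (V α β x * (α * v + β * conj v)) = _
    ring
  rw [h2, h2, map_one, conj_I]
  linear_combination (V α β x * (α - β) ^ 2) * I_sq

/-- **the linear identities on the unit circle** -/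
theorem circ (φ : ℂ → ℂ) (r lam c : ℝ) (u : ℂ → ℝ) (G : ℂ → ℂ) (hr : 1 < r)
    (hφ : DifferentiableOn ℂ φ (ball 0 r)) (hinj : InjOn φ (ball 0 r)) (hlam : 0 < lam)
    (hb : Bornology.IsBounded (φ '' ball 0 1)) (hm : MeasurableSet (φ '' ball 0 1))
    (hc : c ≠ 0) (hS : Sol (φ '' ball 0 1) lam c u G) (α β : ℂ)
    (hαβ : α * β = -((lam / 4 : ℝ) : ℂ)) :
    ∮ w in C(0, 1), exp (α * φ w + β * conj (φ w)) * deriv φ w = 0 := by
  have hβ : β ≠ 0 := by
    rintro rfl
    rw [mul_zero] at hαβ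
    have h1 : ((lam / 4 : ℝ) : ℂ) ≠ 0 := by
      exact_mod_cast (by positivity : (lam / 4 : ℝ) ≠ 0)
    exact h1 (by rw [← neg_eq_zero, ← hαβ])
  have hβ' : conj β ≠ 0 := (map_ne_zero _).2 hβ
  have hcc : (c : ℂ) ≠ 0 := by exact_mod_cast hc
  have hll : (lam : ℂ) ≠ 0 := by exact_mod_cast hlam.ne'
  have hlap : ∀ x, lap (V α β) x = -(lam : ℂ) * V α β x := by
    intro x
    rw [V_lap, hαβ]
    push_cast
    ring
  -- the integral over the domain
  have h1 := Pool.Agent.Y287.SC.weak (φ '' ball 0 1) lam c u G (V α β) hb hm hS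
    (V_contDiff α β 2)
  have h2 : ∫ z in φ '' ball 0 1, V α β z = 0 := by
    simp only [hlap] at h1
    have h3 : ∀ x : ℂ, (u x : ℂ) * (-(lam : ℂ) * V α β x + lam * V α β x) = 0 := by
      intro x
      ring
    simp only [h3] at h1
    rw [integral_zero, integral_const_mul] at h1
    have h4 := h1.symm
    rcases mul_eq_zero.1 h4 with h | h
    · exact absurd h hcc
    · rcases mul_eq_zero.1 h with h | h
      · exact absurd h (neg_ne_zero.2 hll)
      · exact h
  have h3 := Pool.Agent.Y287.SC.chg φ r (V α β) hr hφ hinj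
  rw [h2] at h3
  have hder : DifferentiableOn ℂ (deriv φ) (ball 0 r) := hφ.deriv isOpen_ball
  have hA : DifferentiableOn ℂ (fun w => exp (α * φ w) * deriv φ w) (ball 0 r) :=
    ((hφ.const_mul α).cexp).mul hder
  have hB : DifferentiableOn ℂ (fun w => exp (conj β * φ w) / conj β) (ball 0 r) :=
    ((hφ.const_mul _).cexp).div_const _
  have h4 := Pool.Agent.Y50.SC.disc r _ _ hr hA hB
  have h5 : ∀ w ∈ ball (0 : ℂ) 1, deriv (fun w => exp (conj β * φ w) / conj β) w =
      exp (conj β * φ w) * deriv φ w := by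
    intro w hw
    have hw' : w ∈ ball (0 : ℂ) r := ball_subset_ball hr.le hw
    have h6 : HasDerivAt φ (deriv φ w) w :=
      (hφ.differentiableAt (isOpen_ball.mem_nhds hw')).hasDerivAt
    have h7 := ((h6.const_mul (conj β)).cexp).div_const (conj β)
    rw [h7.deriv]
    field_simp
  have h6 : ∫ w in ball (0 : ℂ) 1, exp (α * φ w) * deriv φ w *
      conj (deriv (fun w => exp (conj β * φ w) / conj β) w) = 0 := by
    refine Eq.trans ?_ h3.symm
    apply setIntegral_congr_fun measurableSet_ball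
    intro w hw
    simp only
    rw [h5 w hw, map_mul, ← exp_conj, map_mul, conj_conj]
    unfold V
    rw [exp_add]
    ring
  rw [h6, mul_zero] at h4
  have h7 : ∮ w in C(0, 1), (exp (α * φ w) * deriv φ w) *
      conj (exp (conj β * φ w) / conj β) = β⁻¹ *
      ∮ w in C(0, 1), exp (α * φ w + β * conj (φ w)) * deriv φ w := by
    rw [← smul_eq_mul, ← circleIntegral.integral_smul]
    apply circleIntegral.integral_congr zero_le_one
    intro w _
    simp only [smul_eq_mul]
    rw [map_div₀, ← exp_conj, map_mul, conj_conj, exp_add]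
    field_simp
  rw [h7] at h4
  rcases mul_eq_zero.1 h4.symm with h | h
  · exact absurd h (inv_ne_zero hβ)
  · exact h

end Pool.Agent.E8helper38.FV
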