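import Pool.Agent.E8helper4.FV.Stm
import Pool.Agent.E8helper38.FV.C1

/-!
# FV, piece C1: the linear identities on the unit circle
-/

set_option autoImplicit false

open Complex MeasureTheory Metric Set Filter Topology ComplexConjugate

namespace Pool.Agent.E8helper38.FV

theorem t_C1 : Pool.Agent.E8helper4.FV.C1 := by
  intro φ r lam hr hφ hinj hlam hS α β hαβ
  obtain ⟨c, u, G, hu, hG, h1, h2, hu0⟩ := hS
  have hSol : Pool.Agent.TH298.Sch.Sol (φ '' ball 0 1) lam c u G := ⟨hu, hG, h1, h2⟩
  have hcont : ContinuousOn φ (closedBall 0 1) :=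
    (hφ.continuousOn).mono (closedBall_subset_ball hr)
  have hb' : Bornology.IsBounded (φ '' ball 0 1) :=
    ((isCompact_closedBall (0 : ℂ) 1).image_of_continuousOn hcont).isBounded.subset
      (image_mono ball_subset_closedBall)
  have hm' : MeasurableSet (φ '' ball 0 1) :=
    (isOpen_ball.measurableSet).image_of_continuousOn_injOn
      (hcont.mono ball_subset_closedBall) (hinj.mono (ball_subset_ball hr.le))
  have hc : c ≠ 0 := hSol.c_ne hb' hm' hlam hu0
  exact circ φ r lam c u G hr hφ hinj hlam hb' hm' hc hSol α β hαβ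

end Pool.Agent.E8helper38.FV
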